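import Pool.Agent.R225.NR.Fin

set_option autoImplicit false

/-!
# With only the inner domain convex, the constant is zero

In the plane, for all `k ≥ 1` and `ε > 0` there are bounded Lipschitz domains `Ω₁ ⊆ Ω₂` with `Ω₁`
convex, `μ_k(Ω₁) ≤ ε` and `μ_k(Ω₂) ≥ 1 / 9`. So the constant `C̃_{k,2}` is `0` for each `k ≥ 1`.

`Ω₂` is the horn `{(x, y) : |y| + δ < exp (-|x|)}` and `Ω₁` a long thin rectangle in it, `δ → 0`.
-/

open Pool.Agent.R225.NM Pool.Agent.R225.NR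

namespace Pool.Agent.Results.MP_770ffc_an.RatioIsZero

theorem result :
    (∀ k : ℕ, 1 ≤ k → ∀ ε : ℝ, 0 < ε →
      ∃ Ω₁ Ω₂ : Set (EuclideanSpace ℝ (Fin 2)), IsLipschitzDomain Ω₁ ∧ IsLipschitzDomain Ω₂ ∧
        Convex ℝ Ω₁ ∧ Ω₁ ⊆ Ω₂ ∧ neumannEigenvalue Ω₁ k ≤ ε ∧
        1 / 9 ≤ neumannEigenvalue Ω₂ k) ∧
    (∀ k : ℕ, 1 ≤ k → ratioConst k 2 = 0) ∧
    ¬ ∀ k d : ℕ, 1 ≤ k → 2 ≤ d → 0 < ratioConst k d := by
  refine ⟨fun k hk ε hε => pair2_eps k hk hε, fun k hk => ratio_zero k hk, fun h => ?_⟩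
  have h1 := h 1 2 le_rfl le_rfl
  rw [ratio_zero 1 le_rfl] at h1
  exact lt_irrefl 0 h1

end Pool.Agent.Results.MP_770ffc_an.RatioIsZero
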